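import Pool.Agent.LSG.Stmts

/-!
# Squad LSG, row EXH (MP_005a41_gt): exhaustion by finite subgroups
-/

set_option autoImplicit false

open MeasureTheory Set Topology

namespace Pool.Agent.LSG.H87

/-- the subgroup generated by the first members of a sequence -/
noncomputable def Hn (s : ℕ → K) (n : ℕ) : AddSubgroup K :=
  (Submodule.span (ZMod 2) (s '' Iic n)).toAddSubgroup

theorem mem_Hn {s : ℕ → K} {n : ℕ} {x : K} :
    x ∈ Hn s n ↔ x ∈ Submodule.span (ZMod 2) (s '' Iic n) := Iff.rfl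

theorem Hn_finite (s : ℕ → K) (n : ℕ) : (Hn s n : Set K).Finite := by
  have h1 : (s '' Iic n).Finite := (finite_Iic n).image s
  have h2 : Module.Finite (ZMod 2) (Submodule.span (ZMod 2) (s '' Iic n)) :=
    Module.Finite.span_of_finite (ZMod 2) h1
  have h3 : Finite (Submodule.span (ZMod 2) (s '' Iic n)) := Module.finite_of_finite (ZMod 2)
  exact Set.toFinite (Submodule.span (ZMod 2) (s '' Iic n) : Set K)

theorem Hn_le {s : ℕ → K} {G : AddSubgroup K} (h : ∀ m, s m ∈ G) (n : ℕ) : Hn s n ≤ G := by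
  intro x hx
  have h1 : Submodule.span (ZMod 2) (s '' Iic n) ≤ AddSubgroup.toZModSubmodule 2 G := by
    rw [Submodule.span_le]
    rintro _ ⟨m, -, rfl⟩
    exact h m
  exact h1 hx

theorem Hn_mono (s : ℕ → K) {n m : ℕ} (h : n ≤ m) : Hn s n ≤ Hn s m := by
  intro x hx
  exact Submodule.span_mono (image_mono (Iic_subset_Iic.2 h)) hx

theorem mem_self (s : ℕ → K) {n m : ℕ} (h : m ≤ n) : s m ∈ Hn s n :=
  Submodule.subset_span ⟨m, h, rfl⟩

/-- the points whose supports are given by `H` -/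
def Ln {G : AddSubgroup K} {k : ℕ} {A B : Set (G × Fin k)} (c : B → A →₀ ℝ) (H : AddSubgroup K)
    (i : Fin k) : Set K :=
  {x | ∃ (hx : x ∈ G) (hB : ((⟨x, hx⟩ : G), i) ∈ B), ∀ a : A, c ⟨_, hB⟩ a ≠ 0 →
    (a.1.1 : K) ∈ H ∨ (a.1.1 : K) - x ∈ H}

/-- **EXH** -/
theorem exh (sup : SupStmt) (trc : TrcStmt) (out : OutStmt) : ExhStmt := by
  intro G hG k A B hA hB hlt T c hR
  obtain ⟨⟨S, N, hSc, hSG, hN, hsup⟩, hE⟩ := sup G hG k A B hA hB T c hR
  obtain ⟨s, hs⟩ := (hSc.insert 0).exists_eq_range (insert_nonempty 0 S)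
  have hsG : ∀ m, s m ∈ G := by
    intro m
    have : s m ∈ insert 0 S := by rw [hs]; exact mem_range_self m
    rcases this with h | h
    · rw [h]; exact G.zero_mem
    · exact hSG h
  have hsS : ∀ y ∈ S, ∃ n, y ∈ Hn s n := by
    intro y hy
    have : y ∈ range s := by rw [← hs]; exact mem_insert_of_mem 0 hy
    obtain ⟨n, rfl⟩ := this
    exact ⟨n, mem_self s le_rfl⟩
  have hmono : ∀ i, Monotone fun n => Ln c (Hn s n) i := by
    rintro i n m hnm x ⟨hx, hxB, h⟩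
    exact ⟨hx, hxB, fun a ha => (h a ha).imp (fun h => Hn_mono s hnm h) fun h => Hn_mono s hnm h⟩
  have hcov : ∀ i, sl B i ⊆ N ∪ ⋃ n, Ln c (Hn s n) i := by
    rintro i x ⟨hx, hxB⟩
    by_cases hxN : x ∈ N
    · exact Or.inl hxN
    right
    have h1 : ∀ a : A, ∃ n, c ⟨_, hxB⟩ a ≠ 0 → (a.1.1 : K) ∈ Hn s n ∨ (a.1.1 : K) - x ∈ Hn s n := by
      intro a
      by_cases ha : c ⟨_, hxB⟩ a ≠ 0
      · rcases hsup ⟨_, hxB⟩ hxN a ha with h | h
        · obtain ⟨n, hn⟩ := hsS _ h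
          exact ⟨n, fun _ => Or.inl hn⟩
        · obtain ⟨n, hn⟩ := hsS _ h
          exact ⟨n, fun _ => Or.inr hn⟩
      · exact ⟨0, fun h => absurd h ha⟩
    choose f hf using h1
    refine mem_iUnion.2 ⟨(c ⟨_, hxB⟩).support.sup f, hx, hxB, fun a ha => ?_⟩
    have h2 : f a ≤ (c ⟨_, hxB⟩).support.sup f := Finset.le_sup (Finsupp.mem_support_iff.2 ha)
    exact (hf a ha).imp (fun h => Hn_mono s h2 h) fun h => Hn_mono s h2 h
  have hle : dm B ≤ ⨆ n, ∑ i, mu (Ln c (Hn s n) i) := by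
    have e : (∑ i, ⨆ n, mu (Ln c (Hn s n) i)) = ⨆ n, ∑ i, mu (Ln c (Hn s n) i) :=
      ENNReal.finsetSum_iSup_of_monotone fun i n m hnm => measure_mono (hmono i hnm)
    rw [← e]
    refine Finset.sum_le_sum fun i _ => ?_
    rw [← (hmono i).measure_iUnion]
    calc mu (sl B i) ≤ mu (N ∪ ⋃ n, Ln c (Hn s n) i) := measure_mono (hcov i)
      _ ≤ mu N + mu (⋃ n, Ln c (Hn s n) i) := measure_union_le _ _
      _ = mu (⋃ n, Ln c (Hn s n) i) := by rw [hN, zero_add]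
  obtain ⟨n, hn⟩ := lt_iSup_iff.1 (hlt.trans_le hle)
  have hA' := fun i => trc G k A hA.isOpen i
  choose A' hA1 hA2 using hA'
  have hE' := fun i => hE (Hn s n : Set K) (Hn_finite s n) i
  choose E hE1 hE2 using hE'
  refine ⟨Hn s n, A', E, Hn_finite s n, Hn_le hsG n, hA1, hE1, hA2, hE2, ?_⟩
  have e1 : ∀ i, mu (A' i) = mu (sl A i) := by
    intro i
    rw [← out G hG (A' i) (hA1 i)]
    congr 1
    ext x
    constructor
    · rintro ⟨hx, h⟩
      exact ⟨hx, (hA2 i x hx).1 h⟩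
    · rintro ⟨hx, h⟩
      exact ⟨hx, (hA2 i x hx).2 h⟩
  have e2 : ∀ i, mu (E i) = mu (Ln c (Hn s n) i) := by
    intro i
    rw [← out G hG (E i) (hE1 i)]
    congr 1
    ext x
    constructor
    · rintro ⟨hx, h⟩
      exact ⟨hx, (hE2 i x hx).1 h⟩
    · rintro ⟨hx, h⟩
      exact ⟨hx, (hE2 i x hx).2 h⟩
  simp only [e1, e2]
  exact hn

end Pool.Agent.LSG.H87
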